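import Mathlib

/-!
# The form `10H ⊕ E₈` arises from a cohomology class of the 8-torus

`H^*(ℤ^n)` is the exterior algebra over `ℤ` on `e_1, …, e_n` (here `e_0, …, e_{n-1}`), that is
`ExteriorAlgebra ℤ (Fin n → ℤ)`; its degree `k` part is `⋀[ℤ]^k (Fin n → ℤ)`, and
`[T] = e_1 ⌣ ⋯ ⌣ e_n` generates `H^n(ℤ^n)`.
We exhibit a class `ω ∈ H^4(ℤ^8)` such that the form `φ_ω` on `H^2(ℤ^8)` given by
`x ⌣ y ⌣ ω = φ_ω(x, y) [T]` is isometric over `ℤ` to `10H ⊕ E₈`.
-/

namespace Pool.Agent.Results.MP_9b3cbe_gt.TenHPlusE8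

open ExteriorAlgebra

/-- The integral cohomology ring `H^*(ℤ^n)`: the exterior algebra over `ℤ` on `n` generators of
degree one. Its product is the cup product. -/
def Coh (n : ℕ) : Type := ExteriorAlgebra ℤ (Fin n → ℤ)

/-- The ring structure of `H^*(ℤ^n)` is that of the exterior algebra. -/
noncomputable instance instRingCoh (n : ℕ) : Ring (Coh n) :=
  (inferInstance : Ring (ExteriorAlgebra ℤ (Fin n → ℤ)))

/-- The `ℤ`-module structure of `H^*(ℤ^n)` is that of the exterior algebra. -/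
noncomputable instance instModuleCoh (n : ℕ) : Module ℤ (Coh n) :=
  (inferInstance : Module ℤ (ExteriorAlgebra ℤ (Fin n → ℤ)))

/-- The degree `k` part `H^k(ℤ^n)` of `H^*(ℤ^n)`: the `k`-th exterior power of `ℤ^n`. -/
def CohDeg (n k : ℕ) : Submodule ℤ (Coh n) := ⋀[ℤ]^k (Fin n → ℤ)

/-- The degree one generator `e_i` of `H^*(ℤ^n)`. -/
noncomputable def gen (n : ℕ) (i : Fin n) : Coh n := ι ℤ (Pi.single i 1)

/-- The generator `[T]` of `H^n(ℤ^n)`: the product `e_1 ⌣ ⋯ ⌣ e_n` of all the degree one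
generators, in increasing order. -/
noncomputable def fundClass (n : ℕ) : Coh n := (List.ofFn (gen n)).prod

/-- The unimodular form with Gram matrix `A` arises for `n`: there is a class
`ω ∈ H^{n-4}(ℤ^n)` such that in a suitable `ℤ`-basis `b` of `H^2(ℤ^n)` the form `φ_ω`, defined by
`x ⌣ y ⌣ ω = φ_ω(x, y) [T]`, has Gram matrix `A`. In other words `φ_ω` is isometric over `ℤ` to
the form with Gram matrix `A` (see `Arises.exists_isometry`). -/
def Arises (n : ℕ) {J : Type} (A : Matrix J J ℤ) : Prop :=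
  ∃ ω ∈ CohDeg n (n - 4), ∃ b : Module.Basis J ℤ (CohDeg n 2),
    ∀ r s : J, (b r : Coh n) * (b s : Coh n) * ω = A r s • fundClass n

/-- The Gram matrix of the hyperbolic plane `H`. -/
def hypPlane : Matrix (Fin 2) (Fin 2) ℤ := !![0, 1; 1, 0]

/-- The Gram matrix of `10H ⊕ E₈`: block diagonal with ten blocks `H` and one block the
`E₈` Cartan matrix. -/
def tenHPlusE8 : Matrix ((Fin 2 × Fin 10) ⊕ Fin 8) ((Fin 2 × Fin 10) ⊕ Fin 8) ℤ :=
  Matrix.fromBlocks (Matrix.blockDiagonal fun _ : Fin 10 => hypPlane) 0 0 CartanMatrix.E₈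

/-! ### Computing with monomials -/

/-- The exterior algebra, as Mathlib's type. -/
abbrev EA (n : ℕ) : Type := ExteriorAlgebra ℤ (Fin n → ℤ)

/-- The exterior powers, as Mathlib's submodules. -/
abbrev EP (n k : ℕ) : Submodule ℤ (EA n) := ⋀[ℤ]^k (Fin n → ℤ)

/-- The generators `e_i` as elements of Mathlib's exterior algebra. -/
noncomputable def egen (n : ℕ) (i : Fin n) : EA n := ι ℤ (Pi.single i (1 : ℤ) : Fin n → ℤ)

/-- The class `[T]` as an element of Mathlib's exterior algebra. -/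
noncomputable def efund (n : ℕ) : EA n := (List.ofFn (egen n)).prod

/-- The monomial `e_{l_1} ⌣ e_{l_2} ⌣ ⋯`. -/
noncomputable def mono (l : List (Fin 8)) : EA 8 := (l.map (egen 8)).prod

/-- Insert a generator into a sorted monomial, keeping track of the sign. -/
def ins (a : Fin 8) : List (Fin 8) → ℤ × List (Fin 8)
  | [] => (1, [a])
  | b :: l => if a < b then (1, a :: b :: l) else if a = b then (0, [])
      else (-(ins a l).1, b :: (ins a l).2)

/-- Sort a monomial, keeping track of the sign. -/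
def nf : List (Fin 8) → ℤ × List (Fin 8)
  | [] => (1, [])
  | a :: l => ((nf l).1 * (ins a (nf l).2).1, (ins a (nf l).2).2)

lemma gen_sq (i : Fin 8) : egen 8 i * egen 8 i = 0 := ι_sq_zero _

lemma gen_anti (i j : Fin 8) : egen 8 i * egen 8 j = -(egen 8 j * egen 8 i) :=
  eq_neg_of_add_eq_zero_left (ι_add_mul_swap _ _)

lemma ins_spec (a : Fin 8) (l : List (Fin 8)) :
    egen 8 a * mono l = (ins a l).1 • mono (ins a l).2 := by
  induction l with
  | nil => simp [ins, mono]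
  | cons b l ih =>
    unfold ins
    split_ifs with h1 h2
    · simp [mono]
    · subst h2
      simp [mono, ← mul_assoc, gen_sq]
    · have h3 : egen 8 a * mono (b :: l) = -(egen 8 b * (egen 8 a * mono l)) := by
        simp only [mono, List.map_cons, List.prod_cons]
        rw [← mul_assoc, gen_anti a b, neg_mul, mul_assoc]
      rw [h3, ih, mul_smul_comm]
      simp [mono]

lemma nf_spec (l : List (Fin 8)) : mono l = (nf l).1 • mono (nf l).2 := by
  induction l with
  | nil => simp [nf, mono]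
  | cons a l ih =>
    have h : mono (a :: l) = egen 8 a * mono l := by simp [mono]
    rw [h, ih, mul_smul_comm, ins_spec, smul_smul]
    rfl

/-- The sorted list of all the indices. -/
def topList : List (Fin 8) := [0, 1, 2, 3, 4, 5, 6, 7]

lemma mono_topList : mono topList = efund 8 := by
  simp [mono, topList, efund, List.ofFn_succ]

/-- The value of a formal linear combination of monomials. -/
noncomputable def ev (L : List (ℤ × List (Fin 8))) : EA 8 :=
  (L.map fun t => t.1 • mono t.2).sum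

/-- Product of formal linear combinations of monomials. -/
def mulL (L M : List (ℤ × List (Fin 8))) : List (ℤ × List (Fin 8)) :=
  L.flatMap fun s => M.map fun t => (s.1 * t.1, s.2 ++ t.2)

lemma ev_nil : ev [] = 0 := rfl

lemma ev_cons (s) (L) : ev (s :: L) = s.1 • mono s.2 + ev L := by simp [ev]

lemma ev_append (L M) : ev (L ++ M) = ev L + ev M := by simp [ev]

lemma mono_append (l m) : mono (l ++ m) = mono l * mono m := by simp [mono]

lemma ev_mulL (L M) : ev (mulL L M) = ev L * ev M := by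
  induction L with
  | nil => simp [mulL, ev_nil]
  | cons s L ih =>
    have h : mulL (s :: L) M = (M.map fun t => (s.1 * t.1, s.2 ++ t.2)) ++ mulL L M := by
      simp [mulL]
    rw [h, ev_append, ih, ev_cons, add_mul]
    congr 1
    clear h ih
    induction M with
    | nil => simp [ev_nil]
    | cons t M ih =>
      rw [List.map_cons, ev_cons, ev_cons, ih, mul_add, mono_append, smul_mul_smul_comm]

/-- The coefficient of `[T]` of a formal linear combination of degree 8 monomials. -/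
def topCoef (L : List (ℤ × List (Fin 8))) : ℤ := (L.map fun t => t.1 * (nf t.2).1).sum

/-- All monomials of the combination are zero or multiples of `[T]`. -/
def isTop (L : List (ℤ × List (Fin 8))) : Bool :=
  L.all fun t => decide ((nf t.2).1 = 0) || decide ((nf t.2).2 = topList)

lemma ev_eq_topCoef (L) (h : isTop L = true) : ev L = topCoef L • efund 8 := by
  induction L with
  | nil => simp [ev_nil, topCoef]
  | cons s L ih =>
    have h' : (((nf s.2).1 = 0) ∨ ((nf s.2).2 = topList)) ∧ isTop L = true := by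
      simpa [isTop] using h
    have h2 : topCoef (s :: L) = s.1 * (nf s.2).1 + topCoef L := by simp [topCoef]
    rw [ev_cons, ih h'.2, h2, add_smul, nf_spec s.2, smul_smul]
    congr 1
    rcases h'.1 with h0 | h1
    · simp [h0]
    · rw [h1, mono_topList]

/-! ### The class `ω` and the basis of `H^2(ℤ^8)` -/

/-- The class `ω`, a signed sum of 13 monomials. -/
def omegaL : List (ℤ × List (Fin 8)) :=
  [(-1, [0, 1, 3, 6]), (1, [0, 1, 4, 5]), (-1, [0, 1, 4, 6]), (1, [0, 1, 5, 6]),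
   (-1, [0, 2, 3, 6]), (-1, [0, 2, 3, 7]), (-1, [0, 2, 4, 6]), (1, [0, 5, 6, 7]),
   (-1, [1, 2, 3, 4]), (-1, [1, 2, 5, 7]), (1, [1, 4, 6, 7]), (-1, [2, 3, 5, 6]),
   (1, [3, 4, 5, 7])]

/-- The ten hyperbolic pairs. -/
def hypL : Fin 10 → Fin 2 → List (ℤ × List (Fin 8)) :=
  ![![[(1, [3, 6])],
      [(-1, [0, 4])]],
    ![[(1, [4, 6])],
      [(1, [1, 5]), (1, [2, 5])]],
    ![[(1, [0, 1])],
      [(-1, [2, 6])]],
    ![[(1, [3, 5]), (1, [4, 5])],
      [(1, [0, 2])]],
    ![[(1, [0, 5])],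
      [(-1, [6, 7])]],
    ![[(1, [1, 2])],
      [(-1, [0, 6])]],
    ![[(1, [2, 4])],
      [(-1, [1, 3])]],
    ![[(1, [2, 5])],
      [(-1, [0, 3]), (1, [1, 5]), (-1, [4, 6])]],
    ![[(1, [0, 2]), (1, [1, 6]), (-1, [3, 5])],
      [(1, [1, 7]), (1, [3, 6])]],
    ![[(1, [0, 7])],
      [(-1, [1, 4])]]]

/-- The `E₈` basis. -/
def e8L : Fin 8 → List (ℤ × List (Fin 8)) :=
  ![[(1, [0, 7]), (1, [1, 4]), (-1, [5, 6])],
    [(-1, [0, 1]), (-1, [1, 3]), (-1, [2, 6]), (1, [3, 7]), (1, [4, 7])],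
    [(1, [0, 3]), (-1, [0, 5]), (-1, [0, 7]), (-1, [1, 5]), (-1, [2, 3]), (1, [2, 5]),
      (-1, [2, 6]), (1, [4, 6]), (1, [4, 7]), (-1, [6, 7])],
    [(-1, [0, 3]), (1, [1, 5]), (-1, [2, 5]), (1, [2, 6]), (-1, [4, 6]), (-1, [4, 7])],
    [(-1, [0, 4]), (1, [0, 5]), (1, [0, 6]), (1, [1, 3]), (1, [2, 3]), (1, [2, 4]),
      (-1, [2, 7]), (1, [3, 4]), (1, [4, 5]), (-1, [5, 7]), (1, [6, 7])],
    [(1, [0, 4]), (1, [2, 7]), (-1, [4, 5])],
    [(-1, [0, 6]), (-1, [1, 2]), (-1, [3, 4])],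
    [(1, [0, 2]), (-1, [0, 4]), (1, [0, 6]), (1, [1, 2]), (1, [1, 6]), (-1, [1, 7]),
      (-1, [2, 7]), (1, [3, 4]), (-1, [3, 5]), (-1, [3, 6])]]

/-- The new basis of `H^2(ℤ^8)`. -/
def basL : (Fin 2 × Fin 10) ⊕ Fin 8 → List (ℤ × List (Fin 8))
  | .inl (i, k) => hypL k i
  | .inr j => e8L j

/-- The old basis elements `e_i ⌣ e_j` in terms of the new basis. -/
def invL : ℕ → ℕ → List (ℤ × ((Fin 2 × Fin 10) ⊕ Fin 8))
  | 0, 1 => [(1, .inl (0, 2))]
  | 0, 2 => [(1, .inl (1, 3))]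
  | 0, 3 => [(-1, .inl (0, 1)), (1, .inl (1, 1)), (-1, .inl (0, 7)), (-1, .inl (1, 7))]
  | 0, 4 => [(-1, .inl (1, 0))]
  | 0, 5 => [(1, .inl (0, 4))]
  | 0, 6 => [(-1, .inl (1, 5))]
  | 0, 7 => [(1, .inl (0, 9))]
  | 1, 2 => [(1, .inl (0, 5))]
  | 1, 3 => [(-1, .inl (1, 6))]
  | 1, 4 => [(-1, .inl (1, 9))]
  | 1, 5 => [(1, .inl (1, 1)), (-1, .inl (0, 7))]
  | 1, 6 => [(1, .inl (0, 3)), (-1, .inl (1, 3)), (1, .inl (1, 8)), (1, .inr 5), (1, .inr 6),
      (1, .inr 7)]
  | 1, 7 => [(-1, .inl (0, 0)), (1, .inl (1, 8))]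
  | 2, 3 => [(-1, .inl (0, 4)), (1, .inl (1, 4)), (-1, .inl (0, 9)), (-1, .inr 2), (-1, .inr 3)]
  | 2, 4 => [(1, .inl (0, 6))]
  | 2, 5 => [(1, .inl (0, 7))]
  | 2, 6 => [(-1, .inl (1, 2))]
  | 2, 7 => [(1, .inl (1, 0)), (1, .inl (0, 8)), (-1, .inl (1, 8)), (-1, .inr 6), (-1, .inr 7)]
  | 3, 4 => [(-1, .inl (0, 5)), (1, .inl (1, 5)), (-1, .inr 6)]
  | 3, 5 => [(1, .inl (0, 3)), (-1, .inl (0, 8)), (1, .inl (1, 8)), (1, .inr 5), (1, .inr 6),
      (1, .inr 7)]
  | 3, 6 => [(1, .inl (0, 0))]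
  | 3, 7 => [(1, .inl (0, 2)), (-1, .inl (1, 6)), (1, .inl (0, 7)), (-1, .inl (1, 7)),
      (1, .inr 1), (1, .inr 3)]
  | 4, 5 => [(1, .inl (0, 8)), (-1, .inl (1, 8)), (-1, .inr 5), (-1, .inr 6), (-1, .inr 7)]
  | 4, 6 => [(1, .inl (0, 1))]
  | 4, 7 => [(-1, .inl (1, 2)), (-1, .inl (0, 7)), (1, .inl (1, 7)), (-1, .inr 3)]
  | 5, 6 => [(1, .inl (0, 9)), (-1, .inl (1, 9)), (-1, .inr 0)]
  | 5, 7 => [(-1, .inl (0, 5)), (1, .inl (0, 6)), (-1, .inl (1, 6)), (-1, .inl (0, 9)),
      (-1, .inr 2), (-1, .inr 3), (-1, .inr 4), (-1, .inr 5), (-1, .inr 6)]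
  | 6, 7 => [(-1, .inl (1, 4))]
  | _, _ => []

/-- The entries of the Gram matrix of `10H ⊕ E₈`, as a function. -/
def entry (r s : (Fin 2 × Fin 10) ⊕ Fin 8) : ℤ := tenHPlusE8 r s

/-- The Gram matrix computation, checked by the kernel. -/
lemma gram_check : ∀ r s : (Fin 2 × Fin 10) ⊕ Fin 8,
    isTop (mulL (mulL (basL r) (basL s)) omegaL) = true ∧
      topCoef (mulL (mulL (basL r) (basL s)) omegaL) = entry r s := by
  decide +kernel

lemma gram_eq (r s : (Fin 2 × Fin 10) ⊕ Fin 8) :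
    ev (basL r) * ev (basL s) * ev omegaL = tenHPlusE8 r s • efund 8 := by
  rw [← ev_mulL, ← ev_mulL, ev_eq_topCoef _ (gram_check r s).1, (gram_check r s).2]
  rfl

/-! ### The new family is a basis -/

/-- The monomial `e_i ⌣ e_j` has degree two. -/
lemma gen_mul_gen_mem (i j : Fin 8) : egen 8 i * egen 8 j ∈ EP 8 2 := by
  show _ ∈ LinearMap.range (ι ℤ) ^ 2
  rw [pow_two]
  exact Submodule.mul_mem_mul ⟨_, rfl⟩ ⟨_, rfl⟩

/-- The coefficient of `e_i ⌣ e_j` in a formal combination of degree two monomials. -/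
def coef2 (L : List (ℤ × List (Fin 8))) (i j : Fin 8) : ℤ :=
  (L.map fun t => if t.2 = [i, j] then t.1 else 0).sum

/-- All monomials of the combination have degree two. -/
def isDeg2 (L : List (ℤ × List (Fin 8))) : Bool := L.all fun t => t.2.length == 2

lemma ev_eq_coef2 (L) (h : isDeg2 L = true) :
    ev L = ∑ i, ∑ j, coef2 L i j • (egen 8 i * egen 8 j) := by
  induction L with
  | nil => simp [ev_nil, coef2]
  | cons s L ih =>
    have h' : s.2.length = 2 ∧ isDeg2 L = true := by simpa [isDeg2] using h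
    obtain ⟨a, b, hab⟩ := List.length_eq_two.mp h'.1
    have h2 : ∀ i j, coef2 (s :: L) i j = (if a = i ∧ b = j then s.1 else 0) + coef2 L i j := by
      intro i j
      simp [coef2, hab]
    rw [ev_cons, ih h'.2]
    simp_rw [h2, add_smul, Finset.sum_add_distrib]
    congr 1
    rw [Finset.sum_eq_single a, Finset.sum_eq_single b]
    · simp [hab, mono]
    · intro j _ hj
      simp [hj.symm]
    · simp
    · intro i _ hi
      simp [hi.symm]
    · simp

lemma deg2_check : ∀ r : (Fin 2 × Fin 10) ⊕ Fin 8, isDeg2 (basL r) = true := by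
  decide +kernel

lemma ev_basL_mem (r) : ev (basL r) ∈ EP 8 2 := by
  rw [ev_eq_coef2 _ (deg2_check r)]
  exact Submodule.sum_mem _ fun i _ => Submodule.sum_mem _ fun j _ =>
    Submodule.smul_mem _ _ (gen_mul_gen_mem i j)

lemma inv_check : ∀ i j : Fin 8, i < j → ∀ k l : Fin 8,
    ((invL i j).map fun t => t.1 * coef2 (basL t.2) k l).sum = if i = k ∧ j = l then 1 else 0 := by
  decide +kernel

lemma inv_sum (M : List (ℤ × ((Fin 2 × Fin 10) ⊕ Fin 8))) :
    (M.map fun t => t.1 • ev (basL t.2)).sum =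
      ∑ k, ∑ l, (M.map fun t => t.1 * coef2 (basL t.2) k l).sum • (egen 8 k * egen 8 l) := by
  induction M with
  | nil => simp
  | cons s M ih =>
    simp only [List.map_cons, List.sum_cons, ih, add_smul, Finset.sum_add_distrib]
    congr 1
    rw [ev_eq_coef2 _ (deg2_check s.2)]
    simp only [Finset.smul_sum, smul_smul]

lemma gen_mul_gen_eq (i j : Fin 8) (h : i < j) :
    egen 8 i * egen 8 j = ((invL i j).map fun t => t.1 • ev (basL t.2)).sum := by
  rw [inv_sum]
  simp_rw [inv_check i j h]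
  rw [Finset.sum_eq_single i, Finset.sum_eq_single j]
  · simp
  · intro l _ hl
    simp [hl.symm]
  · simp
  · intro k _ hk
    simp [hk.symm]
  · simp

/-- The new family, in `H^2(ℤ^8)`. -/
noncomputable def bas (r : (Fin 2 × Fin 10) ⊕ Fin 8) : EP 8 2 := ⟨ev (basL r), ev_basL_mem r⟩

lemma coe_bas (r) : (bas r : EA 8) = ev (basL r) := rfl

lemma span_bas : ⊤ ≤ Submodule.span ℤ (Set.range bas) := by
  rw [← exteriorPower.ιMulti_family_span_of_span ℤ (n := 2) (Pi.basisFun ℤ (Fin 8)).span_eq,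
    Submodule.span_le]
  rintro _ ⟨s, rfl⟩
  obtain ⟨i, j, hij, hs⟩ : ∃ i j : Fin 8, i < j ∧
      (exteriorPower.ιMulti_family ℤ 2 (Pi.basisFun ℤ (Fin 8)) s : EA 8) = egen 8 i * egen 8 j := by
    refine ⟨Set.powersetCard.ofFinEmbEquiv.symm s 0, Set.powersetCard.ofFinEmbEquiv.symm s 1,
      (Set.powersetCard.ofFinEmbEquiv.symm s).strictMono (by decide), ?_⟩
    simp [ExteriorAlgebra.ιMulti_family, ExteriorAlgebra.ιMulti_apply, egen, Matrix.vecTail]
  have h : exteriorPower.ιMulti_family ℤ 2 (Pi.basisFun ℤ (Fin 8)) s =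
      ((invL i j).map fun t => t.1 • bas t.2).sum := by
    apply Subtype.ext
    rw [hs, gen_mul_gen_eq i j hij]
    generalize (invL i j) = M
    induction M with
    | nil => simp
    | cons t M ih => simp only [List.map_cons, List.sum_cons, ih]; rfl
  rw [h]
  refine list_sum_mem fun x hx => ?_
  obtain ⟨t, -, rfl⟩ := List.mem_map.mp hx
  exact Submodule.smul_mem _ _ (Submodule.subset_span ⟨_, rfl⟩)

/-- `[T]` as a product of basis vectors, in terms of Mathlib's `ιMulti`. -/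
lemma efund_eq (n : ℕ) : efund n = ιMulti ℤ n (fun i => Pi.single i (1 : ℤ)) := by
  simp [efund, ιMulti_apply]
  rfl

/-- `[T]` as an element of `H^n(ℤ^n)`. -/
noncomputable def efund' (n : ℕ) : EP n n :=
  exteriorPower.ιMulti ℤ n (fun i => Pi.single i (1 : ℤ))

lemma coe_efund' (n : ℕ) : (efund' n : EA n) = efund n := (efund_eq n).symm

/-- The linear functional `H^n(ℤ^n) → ℤ` which takes the value `1` on `[T]`. -/
noncomputable def topVal (n : ℕ) : EP n n →ₗ[ℤ] ℤ :=
  exteriorPower.alternatingMapLinearEquiv Matrix.detRowAlternating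

lemma topVal_efund (n : ℕ) : topVal n (efund' n) = 1 := by
  simp only [topVal, efund', exteriorPower.alternatingMapLinearEquiv_apply_ιMulti]
  have : (fun i => Pi.single i (1 : ℤ) : Fin n → Fin n → ℤ) = (1 : Matrix (Fin n) (Fin n) ℤ) := by
    ext i j
    simp [Matrix.one_apply, Pi.single_apply, eq_comm]
  rw [this]
  exact Matrix.det_one

/-- `[T]` is not a torsion element. -/
lemma smul_efund_eq_zero (n : ℕ) (c : ℤ) (h : c • efund n = 0) : c = 0 := by
  have h' : c • efund' n = 0 := by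
    apply Subtype.ext
    simpa [coe_efund'] using h
  have := congrArg (topVal n) h'
  simpa [topVal_efund] using this

/-- `[T]` generates `H^n(ℤ^n)`; together with `smul_efund_eq_zero` this says that
`H^n(ℤ^n)` is infinite cyclic with generator `[T]`, so that `φ_ω` is well defined. -/
lemma exists_eq_smul_efund (n : ℕ) (z : EP n n) : ∃ c : ℤ, (z : EA n) = c • efund n := by
  have h := exteriorPower.ιMulti_family_span_of_span ℤ (n := n) (Pi.basisFun ℤ (Fin n)).span_eq
  have hs : ∀ s : Set.powersetCard (Fin n) n,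
      exteriorPower.ιMulti_family ℤ n (Pi.basisFun ℤ (Fin n)) s = efund' n := by
    intro s
    have hu : s.val = Finset.univ := Finset.eq_univ_of_card _ (by simp)
    have hid : Set.powersetCard.ofFinEmbEquiv.symm s = RelEmbedding.refl (· ≤ ·) :=
      (Finset.orderEmbOfFin_unique' s.prop (f := RelEmbedding.refl (· ≤ ·))
        (fun x => by rw [hu]; exact Finset.mem_univ _)).symm
    unfold exteriorPower.ιMulti_family efund'
    congr 1
    rw [hid]
    ext i
    simp
  have hr : Set.range (exteriorPower.ιMulti_family ℤ n (Pi.basisFun ℤ (Fin n))) ⊆ {efund' n} := by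
    rintro _ ⟨s, rfl⟩
    exact hs s
  have hz : z ∈ Submodule.span ℤ {efund' n} := by
    have : (⊤ : Submodule ℤ (EP n n)) ≤ Submodule.span ℤ {efund' n} :=
      h ▸ Submodule.span_mono hr
    exact this trivial
  obtain ⟨c, hc⟩ := Submodule.mem_span_singleton.mp hz
  refine ⟨c, ?_⟩
  rw [← hc, ← coe_efund']
  rfl

/-- The `E₈` Cartan matrix is positive definite (its determinant is `1` and its diagonal entries
are `2`, so it is the Gram matrix of the positive definite even unimodular form of rank 8). -/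
lemma e8_pos (x : Fin 8 → ℤ) (hx : x ≠ 0) : 0 < Matrix.toBilin' CartanMatrix.E₈ x x := by
  have key : 60 * Matrix.toBilin' CartanMatrix.E₈ x x =
      30 * (2 * x 0 - x 2) ^ 2 + 30 * (2 * x 1 - x 3) ^ 2 + 10 * (3 * x 2 - 2 * x 3) ^ 2 +
      30 * (2 * x 7 - x 6) ^ 2 + 10 * (3 * x 6 - 2 * x 5) ^ 2 + 5 * (4 * x 5 - 3 * x 4) ^ 2 +
      3 * (5 * x 4 - 4 * x 3) ^ 2 + 2 * x 3 ^ 2 := by
    rw [Matrix.toBilin'_apply]
    simp [Fin.sum_univ_eight, CartanMatrix.E₈]
    ring
  by_contra hneg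
  have h1 := sq_nonneg (2 * x 0 - x 2)
  have h2 := sq_nonneg (2 * x 1 - x 3)
  have h3 := sq_nonneg (3 * x 2 - 2 * x 3)
  have h4 := sq_nonneg (2 * x 7 - x 6)
  have h5 := sq_nonneg (3 * x 6 - 2 * x 5)
  have h6 := sq_nonneg (4 * x 5 - 3 * x 4)
  have h7 := sq_nonneg (5 * x 4 - 4 * x 3)
  have h8 := sq_nonneg (x 3)
  have e8 : x 3 = 0 := pow_eq_zero_iff (two_ne_zero) |>.mp (by linarith)
  have e7 : 5 * x 4 - 4 * x 3 = 0 := pow_eq_zero_iff (two_ne_zero) |>.mp (by linarith)
  have e6 : 4 * x 5 - 3 * x 4 = 0 := pow_eq_zero_iff (two_ne_zero) |>.mp (by linarith)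
  have e5 : 3 * x 6 - 2 * x 5 = 0 := pow_eq_zero_iff (two_ne_zero) |>.mp (by linarith)
  have e4 : 2 * x 7 - x 6 = 0 := pow_eq_zero_iff (two_ne_zero) |>.mp (by linarith)
  have e3 : 3 * x 2 - 2 * x 3 = 0 := pow_eq_zero_iff (two_ne_zero) |>.mp (by linarith)
  have e2 : 2 * x 1 - x 3 = 0 := pow_eq_zero_iff (two_ne_zero) |>.mp (by linarith)
  have e1 : 2 * x 0 - x 2 = 0 := pow_eq_zero_iff (two_ne_zero) |>.mp (by linarith)
  apply hx
  funext i
  fin_cases i <;> simp <;> omega

lemma det_tenHPlusE8 : tenHPlusE8.det = 1 := by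
  rw [tenHPlusE8, Matrix.det_fromBlocks_zero₂₁, Matrix.det_blockDiagonal, CartanMatrix.E₈_det]
  simp [hypPlane, Matrix.det_fin_two]

lemma linearIndependent_bas : LinearIndependent ℤ bas := by
  rw [Fintype.linearIndependent_iff]
  intro c hc
  have h1 : ∑ r, c r • ev (basL r) = 0 := by
    have := congrArg (fun x : EP 8 2 => (x : EA 8)) hc
    simpa [coe_bas] using this
  have h2 : Matrix.vecMul c tenHPlusE8 = 0 := by
    ext s
    apply smul_efund_eq_zero 8
    have h3 : (∑ r, c r • ev (basL r)) * ev (basL s) * ev omegaL = 0 := by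
      rw [h1, zero_mul, zero_mul]
    simp only [Finset.sum_mul, smul_mul_assoc, gram_eq, smul_smul, ← Finset.sum_smul] at h3
    simpa [Matrix.vecMul, dotProduct] using h3
  have h4 := Matrix.eq_zero_of_vecMul_eq_zero (by rw [det_tenHPlusE8]; norm_num) h2
  intro r
  rw [h4]
  rfl

/-- The new family is a `ℤ`-basis of `H^2(ℤ^8)`. -/
noncomputable def basis : Module.Basis ((Fin 2 × Fin 10) ⊕ Fin 8) ℤ (EP 8 2) :=
  Module.Basis.mk linearIndependent_bas span_bas

lemma basis_apply (r) : basis r = bas r := by simp [basis]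

lemma omega_mem : ev omegaL ∈ EP 8 4 := by
  have h : ∀ l : List (Fin 8), l.length = 4 → mono l ∈ EP 8 4 := by
    intro l hl
    show _ ∈ LinearMap.range (ι ℤ) ^ 4
    rw [← hl]
    clear hl
    induction l with
    | nil => exact Submodule.mem_one.mpr ⟨1, by simp [mono]⟩
    | cons a l ih =>
      rw [List.length_cons, pow_succ', show mono (a :: l) = egen 8 a * mono l by simp [mono]]
      exact Submodule.mul_mem_mul ⟨_, rfl⟩ ih
  have h4 : ∀ t ∈ omegaL, t.2.length = 4 := by decide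
  refine list_sum_mem fun x hx => ?_
  obtain ⟨t, ht, rfl⟩ := List.mem_map.mp hx
  exact Submodule.smul_mem _ _ (h _ (h4 t ht))

/-! ### The theorem -/

lemma fundClass_eq_efund (n : ℕ) : fundClass n = efund n := rfl

lemma arises_tenHPlusE8 : ∃ ω ∈ EP 8 4, ∃ b : Module.Basis ((Fin 2 × Fin 10) ⊕ Fin 8) ℤ (EP 8 2),
    ∀ r s, (b r : EA 8) * (b s : EA 8) * ω = tenHPlusE8 r s • efund 8 :=
  ⟨ev omegaL, omega_mem, basis, fun r s => by
    rw [basis_apply, basis_apply, coe_bas, coe_bas, gram_eq]⟩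

lemma raw_isometry {n : ℕ} {J : Type} [Fintype J] [DecidableEq J] {A : Matrix J J ℤ}
    (ω : EA n) (b : Module.Basis J ℤ (EP n 2))
    (hb : ∀ r s, (b r : EA n) * (b s : EA n) * ω = A r s • efund n) (x y : EP n 2) :
    (x : EA n) * (y : EA n) * ω = Matrix.toBilin b A x y • efund n := by
  rw [Matrix.toBilin_apply]
  conv_lhs => rw [← b.sum_repr x, ← b.sum_repr y]
  simp only [AddSubmonoidClass.coe_finsetSum, Submodule.coe_smul, Finset.sum_mul, Finset.mul_sum,
    smul_mul_assoc, mul_smul_comm, hb, Finset.sum_smul, smul_smul]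
  rw [Finset.sum_comm]
  refine Finset.sum_congr rfl fun i _ => ?_
  rw [Finset.smul_sum]
  refine Finset.sum_congr rfl fun j _ => ?_
  rw [smul_smul]
  congr 1
  ring

/-- The class `[T]` generates `H^n(ℤ^n)`. -/
lemma exists_eq_smul_fundClass (n : ℕ) (z : Coh n) (hz : z ∈ CohDeg n n) :
    ∃ c : ℤ, z = c • fundClass n :=
  exists_eq_smul_efund n ⟨z, hz⟩

/-- The class `[T]` is not torsion. -/
lemma eq_zero_of_smul_fundClass_eq_zero (n : ℕ) (c : ℤ) (h : c • fundClass n = 0) : c = 0 :=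
  smul_efund_eq_zero n c h

/-- If the form with Gram matrix `A` arises for `n` then some `φ_ω` is isometric to it. -/
lemma Arises.exists_isometry {n : ℕ} {J : Type} [Fintype J] [DecidableEq J] {A : Matrix J J ℤ}
    (h : Arises n A) :
    ∃ ω ∈ CohDeg n (n - 4), ∃ φ : LinearMap.BilinForm ℤ (CohDeg n 2),
      (∀ x y : CohDeg n 2, (x : Coh n) * (y : Coh n) * ω = φ x y • fundClass n) ∧
      ∃ f : CohDeg n 2 ≃ₗ[ℤ] (J → ℤ), ∀ x y, φ x y = Matrix.toBilin' A (f x) (f y) := by
  obtain ⟨ω, hω, b, hb⟩ := h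
  refine ⟨ω, hω, Matrix.toBilin b A, ?_, b.equivFun, ?_⟩
  · exact raw_isometry (n := n) ω b hb
  · intro x y
    rw [Matrix.toBilin_apply, Matrix.toBilin'_apply]
    rfl

/-- **Theorem.** There is a class `ω ∈ H^4(ℤ^8)` whose form `φ_ω` on `H^2(ℤ^8)`, defined by
`x ⌣ y ⌣ ω = φ_ω(x, y) [T]`, is isometric over `ℤ` to `10H ⊕ E₈`. -/
theorem result : Arises 8 tenHPlusE8 := arises_tenHPlusE8

end Pool.Agent.Results.MP_9b3cbe_gt.TenHPlusE8
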